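import Pool.Agent.H525.SH.Stm
import Pool.Agent.H525.NF.Mert

set_option autoImplicit false

/-! # Lower bound for the sieve product of a number field (subtask VLOW of helper525) -/

namespace Pool.Agent.H106.SH

open Finset NumberField Filter
open Pool.Agent.Y882 (PZ)
open Pool.Agent.H525.SH (PA hh S_PAF S_VLOW)
open Pool.Agent.H474R2.PG (PR)

theorem one_sub_hh (K : Type) [Field K] [NumberField K] (p : ℕ) :
    1 - hh K p = ∏ P ∈ PA K p, (1 - 1 / (Ideal.absNorm P : ℝ)) := by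
  unfold hh
  ring

theorem log_ge {x : ℝ} (h0 : 0 ≤ x) (h1 : x ≤ 1 / 2) : -(x + 2 * x ^ 2) ≤ Real.log (1 - x) := by
  have h2 : 0 < 1 - x := by linarith
  have h3 := Real.one_sub_inv_le_log_of_pos h2
  refine le_trans ?_ h3
  have h4 : (1 - x)⁻¹ ≤ 1 + x + 2 * x ^ 2 := by
    rw [inv_le_iff_one_le_mul₀ h2]
    nlinarith [mul_nonneg h0 h0, mul_nonneg (mul_nonneg h0 h0) (sub_nonneg.2 h1)]
  linarith

/-- One prime number. -/
theorem one (hP : S_PAF) (K : Type) [Field K] [NumberField K] (p : ℕ) (hp : p.Prime) :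
    0 < 1 - hh K p ∧ 1 - hh K p ≤ 1 ∧
      -((Nat.card (𝓞 K →+* ZMod p) : ℝ) / p + 3 * Module.finrank ℚ K * (1 / (p : ℝ) ^ 2)) ≤
        Real.log (1 - hh K p) := by
  classical
  obtain ⟨-, h2, h3, -⟩ := hP K p hp
  have hp2 : (2 : ℝ) ≤ p := by exact_mod_cast hp.two_le
  have hp0 : (0 : ℝ) < p := by linarith
  have hN : ∀ P ∈ PA K p, (p : ℝ) ≤ Ideal.absNorm P := by
    intro P hPm
    obtain ⟨f, hf, hf'⟩ := h2 P hPm
    rw [hf']
    exact_mod_cast Nat.le_self_pow (by omega) p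
  have hN' : ∀ P ∈ PA K p, Ideal.absNorm P ≠ p → (p : ℝ) ^ 2 ≤ Ideal.absNorm P := by
    intro P hPm hne
    obtain ⟨f, hf, hf'⟩ := h2 P hPm
    have : 2 ≤ f := by
      rcases Nat.lt_or_ge f 2 with h | h
      · have : f = 1 := by omega
        rw [this, pow_one] at hf'
        exact absurd hf' hne
      · exact h
    rw [hf']
    exact_mod_cast Nat.pow_le_pow_right hp.pos this
  have hx0 : ∀ P ∈ PA K p, 0 ≤ 1 / (Ideal.absNorm P : ℝ) := fun P _ => by positivity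
  have hx1 : ∀ P ∈ PA K p, 1 / (Ideal.absNorm P : ℝ) ≤ 1 / p := fun P hPm =>
    one_div_le_one_div_of_le hp0 (hN P hPm)
  have hx2 : ∀ P ∈ PA K p, 1 / (Ideal.absNorm P : ℝ) ≤ 1 / 2 := fun P hPm =>
    (hx1 P hPm).trans (one_div_le_one_div_of_le (by norm_num) hp2)
  rw [one_sub_hh]
  have hpos : ∀ P ∈ PA K p, 0 < 1 - 1 / (Ideal.absNorm P : ℝ) := fun P hPm => by
    have := hx2 P hPm
    linarith
  refine ⟨Finset.prod_pos hpos, Finset.prod_le_one (fun P hPm => (hpos P hPm).le)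
    fun P hPm => by have := hx0 P hPm; linarith, ?_⟩
  rw [Real.log_prod (fun P hPm => (hpos P hPm).ne')]
  -- the sum of the reciprocals
  have hcard : (((PA K p).filter fun P => Ideal.absNorm P = p).card : ℝ) ≤
      Nat.card (𝓞 K →+* ZMod p) := by
    rw [Pool.Agent.H525.NF.card_homs p hp]
    have hfin : {P : Ideal (𝓞 K) | Ideal.absNorm P = p}.Finite :=
      Ideal.finite_setOfPred_absNorm_eq p
    have h5 : Nat.card {P : Ideal (𝓞 K) // Ideal.absNorm P = p} = hfin.toFinset.card := by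
      have := Set.ncard_eq_toFinset_card _ hfin
      rw [← this]
      rfl
    rw [h5]
    have h6 : (PA K p).filter (fun P => Ideal.absNorm P = p) ⊆ hfin.toFinset := by
      intro P hPm
      rw [mem_filter] at hPm
      rw [Set.Finite.mem_toFinset]
      exact hPm.2
    exact_mod_cast Finset.card_le_card h6
  have hterm : ∀ P ∈ PA K p, -((if Ideal.absNorm P = p then 1 / (p : ℝ) else 0) + 3 * (1 / (p : ℝ) ^ 2)) ≤
      Real.log (1 - 1 / (Ideal.absNorm P : ℝ)) := by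
    intro P hPm
    refine le_trans (neg_le_neg ?_) (log_ge (hx0 P hPm) (hx2 P hPm))
    have h7 : (1 / (Ideal.absNorm P : ℝ)) ^ 2 ≤ 1 / (p : ℝ) ^ 2 := by
      rw [← one_div_pow]
      exact pow_le_pow_left₀ (hx0 P hPm) (hx1 P hPm) 2
    have h8 : (0 : ℝ) ≤ 1 / (p : ℝ) ^ 2 := by positivity
    by_cases hq : Ideal.absNorm P = p
    · rw [if_pos hq]
      have := hx1 P hPm
      linarith
    · rw [if_neg hq]
      have : 1 / (Ideal.absNorm P : ℝ) ≤ 1 / (p : ℝ) ^ 2 :=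
        one_div_le_one_div_of_le (by positivity) (hN' P hPm hq)
      linarith
  refine le_trans ?_ (Finset.sum_le_sum hterm)
  rw [Finset.sum_neg_distrib, Finset.sum_add_distrib, ← Finset.sum_filter, Finset.sum_const,
    Finset.sum_const, nsmul_eq_mul, nsmul_eq_mul]
  apply neg_le_neg
  have h9 : (((PA K p).filter fun P => Ideal.absNorm P = p).card : ℝ) * (1 / (p : ℝ)) ≤
      (Nat.card (𝓞 K →+* ZMod p) : ℝ) / p := by
    rw [mul_one_div]
    exact div_le_div_of_nonneg_right hcard hp0.le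
  have h10 : ((PA K p).card : ℝ) * (3 * (1 / (p : ℝ) ^ 2)) ≤
      3 * Module.finrank ℚ K * (1 / (p : ℝ) ^ 2) := by
    have : ((PA K p).card : ℝ) ≤ Module.finrank ℚ K := by exact_mod_cast h3
    have h8 : (0 : ℝ) ≤ 3 * (1 / (p : ℝ) ^ 2) := by positivity
    calc _ ≤ (Module.finrank ℚ K : ℝ) * (3 * (1 / (p : ℝ) ^ 2)) := mul_le_mul_of_nonneg_right this h8
      _ = _ := by ring
  linarith

theorem t_VLOW : S_PAF → S_VLOW := by
  intro hP K _ _
  obtain ⟨C, hC0, w₀, hw⟩ := Pool.Agent.H525.NF.homs_upper K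
  have hs : Summable fun n : ℕ => 1 / (n : ℝ) ^ 2 := Real.summable_one_div_nat_pow.2 (by norm_num)
  obtain ⟨S, hS⟩ : ∃ S : ℝ, S = ∑' n : ℕ, 1 / (n : ℝ) ^ 2 := ⟨_, rfl⟩
  obtain ⟨D, hD⟩ : ∃ D : ℝ, D = C + 3 * Module.finrank ℚ K * S := ⟨_, rfl⟩
  have hPR : ∀ w : ℝ, ∀ p ∈ PR w, p.Prime := fun w p hp => (Pool.Agent.H525.NF.mem_PR.1 hp).1
  -- large `w`
  have hlarge : ∀ w : ℝ, max w₀ 3 ≤ w → Real.exp (-D) / Real.log w ≤ ∏ p ∈ PR w, (1 - hh K p) := by
    intro w hw'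
    have hw3 : (3 : ℝ) ≤ w := (le_max_right _ _).trans hw'
    have hlog : 0 < Real.log w := Real.log_pos (by linarith)
    have hpos : 0 < ∏ p ∈ PR w, (1 - hh K p) :=
      Finset.prod_pos fun p hp => (one hP K p (hPR w p hp)).1
    have h1 : -(Real.log (Real.log w) + D) ≤ Real.log (∏ p ∈ PR w, (1 - hh K p)) := by
      rw [Real.log_prod (fun p hp => (one hP K p (hPR w p hp)).1.ne')]
      refine le_trans ?_ (Finset.sum_le_sum fun p hp => (one hP K p (hPR w p hp)).2.2)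
      rw [Finset.sum_neg_distrib, Finset.sum_add_distrib, ← Finset.mul_sum]
      apply neg_le_neg
      have h2 := hw w ((le_max_left _ _).trans hw')
      have h3 : ∑ p ∈ PR w, 1 / (p : ℝ) ^ 2 ≤ S := by
        rw [hS]
        exact hs.sum_le_tsum _ fun n _ => by positivity
      have h4 : 3 * (Module.finrank ℚ K : ℝ) * ∑ p ∈ PR w, 1 / (p : ℝ) ^ 2 ≤
          3 * Module.finrank ℚ K * S := mul_le_mul_of_nonneg_left h3 (by positivity)
      linarith
    have h5 := Real.exp_le_exp.2 h1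
    rw [Real.exp_log hpos] at h5
    refine le_trans (le_of_eq ?_) h5
    rw [neg_add, Real.exp_add, Real.exp_neg (Real.log (Real.log w)), Real.exp_log hlog]
    rw [div_eq_inv_mul]
  -- monotonicity
  have hmono : ∀ (S T : Finset ℕ), S ⊆ T → (∀ p ∈ T, p.Prime) →
      ∏ p ∈ T, (1 - hh K p) ≤ ∏ p ∈ S, (1 - hh K p) := by
    intro S T hST hT
    rw [← Finset.prod_sdiff hST]
    have h1 : ∏ p ∈ T \ S, (1 - hh K p) ≤ 1 :=
      Finset.prod_le_one (fun p hp => (one hP K p (hT p (mem_sdiff.1 hp).1)).1.le)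
        fun p hp => (one hP K p (hT p (mem_sdiff.1 hp).1)).2.1
    have h2 : 0 ≤ ∏ p ∈ S, (1 - hh K p) :=
      Finset.prod_nonneg fun p hp => (one hP K p (hT p (hST hp))).1.le
    exact mul_le_of_le_one_left h2 h1
  have hPZ : ∀ (Y : ℕ) (ε₁ : ℝ) (w : ℝ), (Y : ℝ) ≤ w → PZ Y ε₁ ⊆ PR w := by
    intro Y ε₁ w hYw p hp
    unfold PZ at hp
    rw [mem_filter, mem_Icc] at hp
    rw [Pool.Agent.H525.NF.mem_PR]
    exact ⟨hp.2.1, le_trans (by exact_mod_cast hp.1.2) hYw⟩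
  obtain ⟨w₁, hw₁⟩ : ∃ w₁ : ℝ, w₁ = max w₀ 3 := ⟨_, rfl⟩
  have hw13 : (3 : ℝ) ≤ w₁ := hw₁ ▸ le_max_right _ _
  have hl1 : 0 < Real.log w₁ := Real.log_pos (by linarith)
  have hl2 : 0 < Real.log 2 := Real.log_pos (by norm_num)
  refine ⟨min (Real.exp (-D)) (Real.exp (-D) / Real.log w₁ * Real.log 2), by positivity, ?_⟩
  intro Y ε₁ hY
  have hY2 : (2 : ℝ) ≤ Y := by exact_mod_cast hY
  have hlY : Real.log 2 ≤ Real.log Y := Real.log_le_log (by norm_num) hY2
  have hlY0 : 0 < Real.log Y := hl2.trans_le hlY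
  rcases le_or_gt w₁ (Y : ℝ) with h | h
  · refine le_trans ?_ ((hlarge Y (hw₁ ▸ h)).trans (hmono _ _ (hPZ Y ε₁ Y le_rfl) (hPR _)))
    exact div_le_div_of_nonneg_right (min_le_left _ _) hlY0.le
  · refine le_trans ?_ ((hlarge w₁ hw₁.ge).trans (hmono _ _ (hPZ Y ε₁ w₁ h.le) (hPR _)))
    rw [div_le_iff₀ hlY0]
    refine (min_le_right _ _).trans ?_
    exact mul_le_mul_of_nonneg_left hlY (by positivity)

end Pool.Agent.H106.SH
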